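import Pool.Agent.MP_c69980_ag.H75.Node

/-!
Terminal points of the resolution.
-/

set_option autoImplicit false

noncomputable section

namespace Pool.Agent.MP_c69980_ag.H75

open MvPolynomial Metric Filter Topology MeasureTheory Set Real
open H4
open H60 (PR)

lemma an_eval (P : PR 2) (q : Fin 2 → ℂ) : AnalyticAt ℂ (fun p => eval p P) q :=
  AnalyticOnNhd.eval_mvPolynomial P q trivial

lemma fderiv_eval (P : PR 2) (q w : Fin 2 → ℂ) :
    fderiv ℂ (fun p => eval p P) q w = ∑ i, eval q (pderiv i P) * w i := by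
  induction P using MvPolynomial.induction_on with
  | C a => simp
  | add p p' hp hp' =>
    simp only [map_add, add_mul, Finset.sum_add_distrib, ← hp, ← hp']
    rw [fderiv_fun_add (an_eval p q).differentiableAt (an_eval p' q).differentiableAt]
    rfl
  | mul_X p i hp =>
    have h := (an_eval p q).differentiableAt.hasFDerivAt.mul (hasFDerivAt_apply (𝕜 := ℂ) i q)
    have e : (fun y : Fin 2 → ℂ => eval y (p * X i)) = (fun y => eval y p) * fun f => f i := by
      funext y; simp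
    rw [e, h.fderiv]
    simp only [ContinuousLinearMap.add_apply, ContinuousLinearMap.smul_apply, hp, smul_eq_mul,
      ContinuousLinearMap.proj_apply]
    fin_cases i <;> simp <;> ring

/-- The polynomial change of coordinates. -/
def Ps (U V : PR 2) (q : Fin 2 → ℂ) : Fin 2 → ℂ := fun i => eval q (![U, V] i)

lemma an_Ps (U V : PR 2) (q : Fin 2 → ℂ) : AnalyticAt ℂ (Ps U V) q :=
  analyticAt_pi_iff.2 fun _ => an_eval _ q

lemma fderiv_Ps (U V : PR 2) (q w : Fin 2 → ℂ) (i : Fin 2) :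
    fderiv ℂ (Ps U V) q w i = ∑ l, eval q (pderiv l (![U, V] i)) * w l := by
  rw [← fderiv_eval]
  unfold Ps
  rw [fderiv_pi fun i => (an_eval _ q).differentiableAt]
  rfl

lemma jac_Ps (U V : PR 2) (q : Fin 2 → ℂ) : jac (Ps U V) q = eval q (jp U V) := by
  simp [jac, fderiv_Ps, jp]

lemma Ps_ne {U V : PR 2} (h : eval 0 (jp U V) ≠ 0) : ∀ᶠ q in 𝓝 0, q ≠ 0 → Ps U V q ≠ 0 := by
  have hi : Function.Injective (fderiv ℂ (Ps U V) 0 : (Fin 2 → ℂ) →ₗ[ℂ] (Fin 2 → ℂ)) := by
    refine (injective_iff_map_eq_zero _).2 fun w hw => ?_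
    have h0 : fderiv ℂ (Ps U V) 0 w 0 = 0 := congrFun hw 0
    have h1 : fderiv ℂ (Ps U V) 0 w 1 = 0 := congrFun hw 1
    rw [fderiv_Ps, Fin.sum_univ_two] at h0 h1
    simp only [Matrix.cons_val_zero, Matrix.cons_val_one] at h0 h1
    simp only [jp, map_sub, map_mul] at h
    funext i
    fin_cases i
    · refine (mul_eq_zero.1 ?_).resolve_left h
      change _ * w 0 = 0
      linear_combination eval 0 (pderiv 1 V) * h0 - eval 0 (pderiv 1 U) * h1
    · refine (mul_eq_zero.1 ?_).resolve_left h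
      change _ * w 1 = 0
      linear_combination eval 0 (pderiv 0 U) * h1 - eval 0 (pderiv 0 V) * h0
  obtain ⟨K, -, hK⟩ := (LinearMap.injective_iff_antilipschitz _).1 hi
  exact eventually_nhdsWithin_iff.1
    ((an_Ps U V 0).differentiableAt.hasFDerivAt.eventually_ne (c := 0) ⟨K, hK⟩)

lemma F2.mono {C : Ctx} (hC : C.Ok) {O O' : ℕ → Set ℂ} {ρ : ℕ → ℂ → ℂ} (h : F2 C O ρ)
    (H : ∀ k, O' k ⊆ O k) : F2 C O' ρ := fun ε hε =>
  (h ε hε).imp fun _ a => ⟨a.1, a.2.mono hC le_rfl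
    (.of_forall fun k => .of_forall fun _ hz => ⟨⟨H k hz.1, hz.2⟩, le_rfl⟩)⟩

theorem term (hN : NodeStmt) (hM : CmpStmt) (hP : PullStmt) : TermStmt := by
  intro θ U V a b G₁ hj ha hb e hU hV hG h0
  have ev : ∀ᶠ q in 𝓝 (0 : Fin 2 → ℂ), q ∈ G₁ ∧ eval q (jp U V) ≠ 0 ∧ eval q a ≠ 0 ∧ eval q b ≠ 0 ∧
      ‖eval q U‖ < 1 / 2 ∧ ‖eval q V‖ < 1 / 2 ∧ (q ≠ 0 → Ps U V q ≠ 0) := by
    filter_upwards [hG.mem_nhds h0, (an_eval _ 0).continuousAt.eventually_ne hj,
      (an_eval _ 0).continuousAt.eventually_ne ha, (an_eval _ 0).continuousAt.eventually_ne hb,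
      (an_eval U 0).continuousAt.norm.eventually_lt_const hU,
      (an_eval V 0).continuousAt.norm.eventually_lt_const hV, Ps_ne hj] with q a1 a2 a3 a4 a5 a6 a7
    exact ⟨a1, a2, a3, a4, a5, a6, a7⟩
  obtain ⟨δ, δ0, hδ⟩ := nhds_basis_closedBall.eventually_iff.1 ev
  have hK := isCompact_closedBall (0 : Fin 2 → ℂ) δ
  have hs : ball (0 : Fin 2 → ℂ) δ ⊆ closedBall 0 δ := ball_subset_closedBall
  have ee : ∀ q, eval q a * (eval q U * eval q V) = eval q b * eval q θ := fun q => by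
    simpa using congrArg (eval q) e
  have ns : NS θ (ball 0 δ) {0} := by
    intro q hq hq0 h1
    obtain ⟨-, a2, a3, a4, -, -, a7⟩ := hδ (hs hq)
    by_contra hn
    push Not at hn
    have h2 : eval q U * eval q V = 0 := by
      have := ee q
      rw [h1, mul_zero] at this
      exact (mul_eq_zero.1 this).resolve_left a3
    have h3 : ∀ i, eval q U * eval q (pderiv i V) + eval q V * eval q (pderiv i U) = 0 := fun i => by
      have := congrArg (fun P => eval q (pderiv i P)) e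
      simp only [Derivation.leibniz, smul_eq_mul, map_add, map_mul, h1, hn i, h2, mul_zero,
        zero_mul, add_zero] at this
      exact (mul_eq_zero.1 this).resolve_left a3
    simp only [jp, map_sub, map_mul] at a2
    have h4 : eval q U = 0 := by
      refine (mul_eq_zero.1 ?_).resolve_left a2
      linear_combination eval q (pderiv 0 U) * h3 1 - eval q (pderiv 1 U) * h3 0
    have h5 : eval q V = 0 := by
      refine (mul_eq_zero.1 ?_).resolve_left a2
      linear_combination eval q (pderiv 1 V) * h3 0 - eval q (pderiv 0 V) * h3 1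
    refine a7 hq0 (funext fun i => ?_)
    fin_cases i
    exacts [h4, h5]
  refine ⟨ball 0 δ, isOpen_ball, mem_ball_self δ0, ns, fun C c A hC hc hθ fU fV fUV hev => ?_⟩
  let c' : Ch := ⟨fun i => c.ev (![U, V] i), fun k w => c.b k w / c.ev (jp U V) k w ^ C.m, X 0 * X 1⟩
  have r0 : ∀ S, Rel0 C c c' (Ps U V) S := fun S =>
    .of_forall fun k z _ i => .of_forall fun _ => rfl
  have hC' : (C.res (dom C c (ball 0 δ))).Ok := hC.res (dom_open hC isOpen_ball)
  obtain ⟨-, ⟨A₁, p1, m1⟩, m2⟩ := hM C c c' _ (Ps U V) hK (fun q _ => an_Ps U V q) (r0 _)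
  obtain ⟨A₂, p2, m2⟩ := m2 fun q hq => by rw [jac_Ps]; exact (hδ hq).2.1
  have e' : c'.ev (X 0 * X 1) = c.ev (U * V) := by
    funext k z; simp [c', Ch.ev, Ch.pt]
  have su : ∀ S k, dom (C.res (dom C c (ball 0 δ))) c' S k ⊆ dom C c univ k := fun S k z hz =>
    dom_mono (subset_univ _) hz.1
  have sk : ∀ S k, dom (C.res (dom C c (ball 0 δ))) c' S k ⊆ dom C c (closedBall 0 δ) k :=
    fun S k z hz => dom_mono hs hz.1
  have hc' : ChOK (C.res (dom C c (ball 0 δ))) c' := by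
    refine ⟨?_, fun K _ => ?_, fun K k1 k2 => ?_, ?_⟩
    · filter_upwards [hc.1, m2] with k a1 a2
      refine ⟨fun i z hz => Or.inl ((an_eval _ _).comp (pt_an hz)), ?_⟩
      filter_upwards [a1.2] with z a3 hz
      obtain ⟨n1, n2, n3⟩ := a3 hz.1
      obtain ⟨-, b2, b3, b4, -⟩ := hδ (hs hz.2.2)
      refine ⟨fun h => n1 (le_antisymm ?_ N2_nonneg), div_ne_zero n2 (pow_ne_zero _ b2), ?_⟩
      · simpa [h] using a2 z (dom_mono hs hz)
      · change c'.ev (X 0 * X 1) k z ≠ 0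
        rw [e']
        intro h
        have := ee (c.pt k z)
        rw [← map_mul, show eval (c.pt k z) (U * V) = 0 from h, mul_zero] at this
        exact mul_ne_zero b4 (hθ ▸ n3) this.symm
    · exact Fn.mono (C := C) hC ((hc.2.1 _ hK).smul p1.le)
        (m1.mono fun k h => .of_forall fun z hz => ⟨sk _ k hz, h z (sk _ k hz)⟩)
    · have k3 : IsCompact (closedBall 0 δ ∩ Ps U V ⁻¹' K) := hK.inter_right
        (k1.isClosed.preimage (continuous_iff_continuousAt.2 fun q => (an_Ps U V q).continuousAt))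
      refine Null.mono (C := C) hC ((hc.2.2.1 _ k3 fun q hq h => ?_).smul p1)
        (m1.mono fun k h => .of_forall fun z hz =>
          ⟨⟨hz.1.1, hz.1.2.1, hs hz.1.2.2, hz.2.2⟩, h z (sk _ k hz)⟩)
      have h1 := k2 _ hq.2
      have h2 := ee q
      rw [← hθ, h, mul_zero] at h2
      refine h1 ?_
      simpa [c', Ps] using (mul_eq_zero.1 h2).resolve_left (hδ hq.1).2.2.1
    · change F2 C _ (c'.ev (X 0 * X 1))
      rw [e']
      exact F2.mono hC fUV (su _)
  have nd := hN _ c' (ball 0 (1 / 2)) A hC' hc' rfl (F2.mono (C := C) hC fU (su _))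
    (F2.mono (C := C) hC fV (su _)) isOpen_ball subset_rfl (by
      filter_upwards [hev] with k hk
      have s1 : dom (C.res (dom C c (ball 0 δ))) c' (ball 0 (1 / 2)) k ⊆ dom C c G₁ k :=
        fun z hz => ⟨hz.1.1, hz.1.2.1, (hδ (hs hz.1.2.2)).1⟩
      refine ⟨hk.1.mono fun z h hz => ?_, fun z hz => hk.2 z (s1 hz) (hδ (hs hz.1.2.2)).2.1⟩
      have h1 := h (s1 hz)
      have h2 : c.ev (U * V) k z = c'.x 0 k z * c'.x 1 k z := by simp [c', Ch.ev]
      rw [h2] at h1
      exact h1)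
  refine hP C c c' _ _ {0} {0} (Ps U V) (fun q => eval q b / eval q a) hC hc isOpen_ball
    (fun q _ => an_Ps U V q) (fun q hq => (an_eval b q).div (an_eval a q) (hδ (hs hq)).2.2.1)
    (fun q hq => ?_) (hθ ▸ ns) (fun r hr => ?_) ⟨r0 _, .of_forall fun k => .of_forall fun z hz => ?_⟩
    nd
  · obtain ⟨-, b2, b3, b4, b5, b6, -⟩ := hδ (hs hq)
    refine ⟨by rwa [jac_Ps], div_ne_zero b4 b3, ?_, ?_⟩
    · rw [hθ, div_mul_eq_mul_div, eq_div_iff b3, ← ee q]
      simp [c', Ps, mul_comm]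
    · rw [mem_ball_zero_iff, pi_norm_lt_iff (by norm_num)]
      intro i
      fin_cases i
      exacts [b5, b6]
  · have k3 : IsCompact (closedBall (0 : Fin 2 → ℂ) δ ∩ {q | r ≤ ‖q‖}) :=
      hK.inter_right (isClosed_le continuous_const continuous_norm)
    obtain ⟨r', h1, h2⟩ := k3.exists_forall_le' (f := fun q => ‖Ps U V q‖) (a := 0)
      (fun q _ => (an_Ps U V q).continuousAt.norm.continuousWithinAt) fun q hq =>
        norm_pos_iff.2 ((hδ hq.1).2.2.2.2.2.2 (norm_pos_iff.1 (hr.trans_le hq.2)))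
    refine ⟨r', h1, fun q hq h s hs' => ?_⟩
    rw [mem_singleton_iff.1 hs', dist_zero_right]
    exact h2 q ⟨hs hq, by simpa using h 0 rfl⟩
  · have h1 : ‖c.ev (jp U V) k z‖ ≠ 0 := norm_ne_zero_iff.2 (hδ (hs hz.2.2)).2.1
    rw [jac_Ps]
    change _ = ‖c.b k z / c.ev (jp U V) k z ^ C.m‖ * ‖c.ev (jp U V) k z‖ ^ C.m
    rw [norm_div, norm_pow, div_mul_cancel₀ _ (pow_ne_zero _ h1)]

end Pool.Agent.MP_c69980_ag.H75
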