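import Pool.Agent.MP_c69980_ag.H75.LS

/-!
The logarithmic cut-off function.
-/

set_option autoImplicit false

noncomputable section

namespace Pool.Agent.MP_c69980_ag.H75

open MvPolynomial Metric Filter Topology MeasureTheory Set Real
open scoped ContDiff
open H4

lemma D_re {g : ℂ → ℂ} {z : ℂ} (hg : DifferentiableAt ℂ g z) (a ξ : ℂ) :
    fderiv ℝ (fun w => (g w * a).re) z ξ = (deriv g z * a * ξ).re := by
  have h1 : HasDerivAt (fun w => g w * a) (deriv g z * a) z := hg.hasDerivAt.mul_const a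
  have h2 := Complex.reCLM.hasFDerivAt.comp z (h1.hasFDerivAt.restrictScalars ℝ)
  have h3 : fderiv ℝ (fun w => (g w * a).re) z = _ := h2.fderiv
  rw [h3]
  simp
  ring

lemma grad_lap {f : ℂ → ℝ} {g : ℂ → ℂ} {z : ℂ} (hg : DifferentiableAt ℂ g z)
    (h : ∀ᶠ w in 𝓝 z, ∀ ξ, fderiv ℝ f w ξ = (g w * ξ).re) :
    ‖grad f z‖ = ‖g z‖ ∧ lap f z = 0 := by
  have e : ∀ ξ, D ξ f =ᶠ[𝓝 z] fun w => (g w * ξ).re := fun ξ => h.mono fun w a => a ξ
  constructor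
  · have : grad f z = (starRingEnd ℂ) (g z) := by
      apply Complex.ext <;> simp [grad, (e _).eq_of_nhds]
    rw [this, Complex.norm_conj]
  · have h1 : D 1 (D 1 f) z = (deriv g z * 1 * 1).re := by
      rw [← D_re hg, D, (e 1).fderiv_eq]
    have h2 : D Complex.I (D Complex.I f) z = (deriv g z * Complex.I * Complex.I).re := by
      rw [← D_re hg, D, (e _).fderiv_eq]
    rw [lap, h1, h2]
    simp

lemma fderiv_lg {v : ℂ → ℂ} {z : ℂ} (hv : DifferentiableAt ℂ v z) (h0 : v z ≠ 0) (a : ℝ) (ξ : ℂ) :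
    fderiv ℝ (fun w => lg (v w) * a) z ξ = (2 * a * (deriv v z / v z) * ξ).re := by
  have h1 := (hv.hasDerivAt.hasFDerivAt.restrictScalars ℝ).norm_sq
  have hp : ‖v z‖ ^ 2 ≠ 0 := pow_ne_zero 2 (norm_ne_zero_iff.2 h0)
  have h2 := (h1.log hp).mul_const a
  have h3 : fderiv ℝ (fun w => lg (v w) * a) z = _ := h2.fderiv
  rw [h3]
  have hn : Complex.normSq (v z) ≠ 0 := by rwa [Complex.normSq_eq_norm_sq]
  simp [Complex.div_re, Complex.div_im, ← Complex.normSq_eq_norm_sq]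
  field_simp
  ring

lemma cd_lg {v : ℂ → ℂ} {z : ℂ} (hv : AnalyticAt ℂ v z) (h0 : v z ≠ 0) (a : ℝ) :
    ContDiffAt ℝ ∞ (fun w => lg (v w) * a) z :=
  (((hv.contDiffAt.restrict_scalars ℝ).norm_sq ℝ).log
    (pow_ne_zero 2 (norm_ne_zero_iff.2 h0))).mul contDiffAt_const

lemma grad_lap_lg {v : ℂ → ℂ} {z : ℂ} (hv : AnalyticAt ℂ v z) (h0 : v z ≠ 0) (a : ℝ) :
    ‖grad (fun w => lg (v w) * a) z‖ ^ 2 = 4 * a ^ 2 * (‖deriv v z‖ ^ 2 / ‖v z‖ ^ 2) ∧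
      lap (fun w => lg (v w) * a) z = 0 := by
  have := grad_lap (f := fun w => lg (v w) * a) (g := fun w => 2 * a * (deriv v w / v w))
    ((hv.deriv.div hv h0).differentiableAt.const_mul _) (by
      filter_upwards [hv.eventually_analyticAt, hv.continuousAt.eventually_ne h0] with w a1 a2
      exact fderiv_lg a1.differentiableAt a2 a)
  refine ⟨?_, this.2⟩
  rw [this.1]
  simp [mul_pow, div_pow]
  norm_num

lemma grad_lap_const {f : ℂ → ℝ} {z : ℂ} {a : ℝ} (h : f =ᶠ[𝓝 z] fun _ => a) :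
    ‖grad f z‖ = 0 ∧ lap f z = 0 := by
  simpa using grad_lap (f := f) (g := fun _ => 0) (differentiableAt_const _)
    (h.eventuallyEq_nhds.mono fun w b ξ => by simp [b.fderiv_eq])

/-- The profile of the cut-off. -/
def kap (t : ℝ) : ℝ := smoothTransition (t - 1)

lemma kap_cd : ContDiff ℝ ∞ kap := smoothTransition.contDiff.comp (contDiff_id.sub contDiff_const)

lemma kap_bd : ∃ M : ℝ, 0 < M ∧ ∀ t ∈ Icc (1 : ℝ) 2,
    deriv kap t ^ 2 ≤ M ∧ |deriv (deriv kap) t| ≤ M := by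
  have h1 : ContDiff ℝ ∞ (deriv kap) := (contDiff_infty_iff_deriv.1 kap_cd).2
  have h2 : ContDiff ℝ ∞ (deriv (deriv kap)) := (contDiff_infty_iff_deriv.1 h1).2
  obtain ⟨M, hM⟩ := (isCompact_Icc (a := (1 : ℝ)) (b := 2)).exists_bound_of_continuousOn
    ((h1.continuous.pow 2).add h2.continuous.abs).continuousOn
  refine ⟨max M 1, by positivity, fun t ht => ?_⟩
  have := (le_abs_self _).trans ((hM t ht).trans (le_max_left M 1))
  simp only [Pi.add_apply, Pi.pow_apply] at this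
  constructor <;> nlinarith [sq_nonneg (deriv kap t), abs_nonneg (deriv (deriv kap) t)]

open Classical in
/-- The cut-off: `1` for `‖t‖ ≤ ρ ^ 2` and `0` for `ρ ≤ ‖t‖`. -/
def chi (ρ : ℝ) (t : ℂ) : ℝ := if t = 0 then 1 else kap (lg t * (log (ρ ^ 2))⁻¹)

variable {ρ : ℝ} {t : ℂ}

lemma logsq_neg (h0 : 0 < ρ) (h1 : ρ < 1) : log (ρ ^ 2) < 0 :=
  log_neg (by positivity) (by nlinarith)

lemma chi_mem (ρ : ℝ) (t : ℂ) : 0 ≤ chi ρ t ∧ chi ρ t ≤ 1 := by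
  unfold chi
  split_ifs
  · simp
  · exact ⟨smoothTransition.nonneg _, smoothTransition.le_one _⟩

lemma lg_le_of (h0 : t ≠ 0) {s : ℝ} (h : ‖t‖ ≤ s) : lg t ≤ log (s ^ 2) :=
  log_le_log (pow_pos (norm_pos_iff.2 h0) 2) (pow_le_pow_left₀ (norm_nonneg _) h 2)

lemma le_lg_of {s : ℝ} (h0 : 0 < s) (h : s ≤ ‖t‖) : log (s ^ 2) ≤ lg t :=
  log_le_log (pow_pos h0 2) (pow_le_pow_left₀ h0.le h 2)

lemma log_sq_sq (ρ : ℝ) : log ((ρ ^ 2) ^ 2) = 2 * log (ρ ^ 2) := by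
  rw [log_pow]; norm_num

lemma chi_one (h0 : 0 < ρ) (h1 : ρ < 1) (h : ‖t‖ ≤ ρ ^ 2) : chi ρ t = 1 := by
  unfold chi
  split_ifs with e
  · rfl
  refine smoothTransition.one_of_one_le ?_
  have h2 := logsq_neg h0 h1
  have h3 := lg_le_of e h
  rw [log_sq_sq] at h3
  rw [← div_eq_mul_inv, le_sub_iff_add_le, le_div_iff_of_neg h2]
  linarith

lemma chi_zero (h0 : 0 < ρ) (h1 : ρ < 1) (h : ρ ≤ ‖t‖) : chi ρ t = 0 := by
  have e : t ≠ 0 := norm_pos_iff.1 (h0.trans_le h)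
  unfold chi
  rw [if_neg e]
  refine smoothTransition.zero_of_nonpos ?_
  have h2 := logsq_neg h0 h1
  have h3 := le_lg_of h0 h
  rw [← div_eq_mul_inv, sub_nonpos, div_le_iff_of_neg h2]
  linarith

/-- On the annulus the logarithm is comparable with `log (ρ ^ 2)`. -/
lemma ann (h0 : 0 < ρ) (h1 : ρ ^ 2 ≤ ‖t‖) (h2 : ‖t‖ ≤ ρ) :
    t ≠ 0 ∧ 2 * log (ρ ^ 2) ≤ lg t ∧ lg t ≤ log (ρ ^ 2) := by
  have e : t ≠ 0 := norm_pos_iff.1 ((pow_pos h0 2).trans_le h1)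
  exact ⟨e, log_sq_sq ρ ▸ le_lg_of (pow_pos h0 2) h1, lg_le_of e h2⟩

lemma Pc_nonneg (v : ℂ → ℂ) (z : ℂ) : 0 ≤ Pc v z := by unfold Pc; positivity

open Classical in
/-- The bound for the derivatives of the cut-off. -/
def Yc (A ρ : ℝ) (v : ℂ → ℂ) (z : ℂ) : ℝ := if ρ ^ 2 ≤ ‖v z‖ ∧ ‖v z‖ ≤ ρ then A * Pc v z else 0

lemma chi_ev_one (h0 : 0 < ρ) (h1 : ρ < 1) {v : ℂ → ℂ} {z : ℂ} (hv : ContinuousAt v z)
    (h : ‖v z‖ < ρ ^ 2) : (fun w => chi ρ (v w)) =ᶠ[𝓝 z] fun _ => 1 :=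
  (hv.norm.eventually_lt_const h).mono fun _ a => chi_one h0 h1 a.le

lemma chi_bd (hR : LapRuleStmt) : ∃ A : ℝ, 0 < A ∧ ∀ ρ : ℝ, 0 < ρ → ρ < 1 →
    ∀ (v : ℂ → ℂ) (z : ℂ), AnalyticAt ℂ v z → ContDiffAt ℝ ∞ (fun w => chi ρ (v w)) z ∧
      ‖grad (fun w => chi ρ (v w)) z‖ ^ 2 ≤ Yc A ρ v z ∧
      |lap (fun w => chi ρ (v w)) z| ≤ Yc A ρ v z := by
  obtain ⟨M, M0, hM⟩ := kap_bd
  refine ⟨16 * M, by positivity, fun ρ h0 h1 v z hv => ?_⟩
  have hY : 0 ≤ Yc (16 * M) ρ v z := by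
    unfold Yc; split_ifs
    · exact mul_nonneg (by positivity) (Pc_nonneg _ _)
    · rfl
  have cst : ∀ a : ℝ, ((fun w => chi ρ (v w)) =ᶠ[𝓝 z] fun _ => a) →
      ContDiffAt ℝ ∞ (fun w => chi ρ (v w)) z ∧
      ‖grad (fun w => chi ρ (v w)) z‖ ^ 2 ≤ Yc (16 * M) ρ v z ∧
      |lap (fun w => chi ρ (v w)) z| ≤ Yc (16 * M) ρ v z := fun a h => by
    obtain ⟨e1, e2⟩ := grad_lap_const h
    exact ⟨contDiffAt_const.congr_of_eventuallyEq h, by simpa [e1] using hY, by simpa [e2] using hY⟩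
  by_cases c1 : ‖v z‖ < ρ ^ 2
  · exact cst 1 (chi_ev_one h0 h1 hv.continuousAt c1)
  by_cases c2 : ρ < ‖v z‖
  · exact cst 0 ((hv.continuousAt.norm.eventually_const_lt c2).mono fun _ a => chi_zero h0 h1 a.le)
  rw [not_lt] at c1 c2
  obtain ⟨e, a1, a2⟩ := ann h0 c1 c2
  have hL := logsq_neg h0 h1
  set L := log (ρ ^ 2) with hLd
  have ev : (fun w => chi ρ (v w)) =ᶠ[𝓝 z] fun w => kap (lg (v w) * L⁻¹) :=
    (hv.continuousAt.eventually_ne e).mono fun w a => if_neg a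
  have cd := cd_lg hv e L⁻¹
  have two : (2 : WithTop ℕ∞) ≤ ∞ := WithTop.coe_le_coe.2 (le_top : (2 : ℕ∞) ≤ ⊤)
  obtain ⟨-, -, r3, r4, -⟩ := hR _ _ kap z (cd.of_le two) (cd.of_le two)
    (kap_cd.contDiffAt.of_le two)
  obtain ⟨g1, g2⟩ := grad_lap_lg hv e L⁻¹
  obtain ⟨m1, m2⟩ := hM (lg (v z) * L⁻¹) ⟨by
    rw [← div_eq_mul_inv, le_div_iff_of_neg hL]; linarith, by
    rw [← div_eq_mul_inv, div_le_iff_of_neg hL]; linarith⟩
  have key : ‖grad (fun w => lg (v w) * L⁻¹) z‖ ^ 2 ≤ 16 * Pc v z := by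
    have hn : 0 < ‖v z‖ := norm_pos_iff.2 e
    have hl : lg (v z) ≠ 0 := by linarith
    have hL0 : L ≠ 0 := hL.ne
    have : 16 * Pc v z = 4 * L⁻¹ ^ 2 * (‖deriv v z‖ ^ 2 / ‖v z‖ ^ 2) * (4 * L ^ 2 / lg (v z) ^ 2) := by
      change 16 * (_ / (_ * lg (v z) ^ 2)) = _
      field_simp
      ring
    rw [g1, this]
    refine le_mul_of_one_le_right (by positivity) ?_
    rw [le_div_iff₀ (by positivity)]
    nlinarith
  have eg : grad (fun w => chi ρ (v w)) z = grad (fun w => kap (lg (v w) * L⁻¹)) z := by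
    simp only [grad, D, ev.fderiv_eq]
  have el : lap (fun w => chi ρ (v w)) z = lap (fun w => kap (lg (v w) * L⁻¹)) z := by
    have : ∀ ξ, D ξ (fun w => chi ρ (v w)) =ᶠ[𝓝 z] D ξ fun w => kap (lg (v w) * L⁻¹) := fun ξ =>
      ev.eventuallyEq_nhds.mono fun w a => by simp only [D, a.fderiv_eq]
    unfold lap
    rw [D, D, (this _).fderiv_eq, (this _).fderiv_eq]
    rfl
  have hP := Pc_nonneg v z
  rw [Yc, if_pos ⟨c1, c2⟩, eg, el, r3, r4, g2, norm_smul, mul_pow, Real.norm_eq_abs, sq_abs,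
    mul_zero, zero_add, abs_mul, abs_of_nonneg (sq_nonneg ‖_‖)]
  refine ⟨(kap_cd.contDiffAt.comp z cd).congr_of_eventuallyEq ev, ?_, ?_⟩
  · nlinarith [mul_le_mul m1 key (by positivity) M0.le]
  · nlinarith [mul_le_mul m2 key (by positivity) M0.le]

end Pool.Agent.MP_c69980_ag.H75
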