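import Pool.Agent.MP_c69980_ag.H4.Base

/-!
Functions with subharmonic logarithm.
-/

set_option autoImplicit false

noncomputable section

namespace Pool.Agent.MP_c69980_ag.H75

open MvPolynomial Metric Filter Topology MeasureTheory Set Real
open H4

/-- `log ‖t‖ ^ 2` -/
def lg (t : ℂ) : ℝ := log (‖t‖ ^ 2)

lemma lg_eq (t : ℂ) : lg t = 2 * log ‖t‖ := by simp [lg]

/-- Nonnegative functions whose logarithm has the sub-mean value property. -/
structure LS (O : Set ℂ) (a : ℂ → ℝ) : Prop where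
  nn : ∀ z, 0 ≤ a z
  ms : AEMeasurable a (volume.restrict O)
  li : LocallyIntegrableOn (fun z => log (a z)) O
  sm : ∀ᵐ c, c ∈ O → 0 < a c → ∀ s, 0 < s → closedBall c s ⊆ O →
    (∀ᵐ z, z ∈ ball c s → 0 < a z) ∧ π * s ^ 2 * log (a c) ≤ ∫ z in ball c s, log (a z)

variable {O O' : Set ℂ} {a b f g : ℂ → ℝ}

lemma locInt_of_le (hO : IsOpen O) (hg : LocallyIntegrableOn g O)
    (hf : AEMeasurable f (volume.restrict O)) (h : ∀ᵐ z, z ∈ O → |f z| ≤ g z) :
    LocallyIntegrableOn f O := fun x hx => by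
  obtain ⟨t, t1, t2⟩ := hg x hx
  refine ⟨t ∩ O, inter_mem t1 self_mem_nhdsWithin, ?_⟩
  refine Integrable.mono' (t2.mono_set inter_subset_left)
    (hf.mono_measure (Measure.restrict_mono inter_subset_right le_rfl)).aestronglyMeasurable ?_
  exact ae_mono (Measure.restrict_mono inter_subset_right le_rfl)
    ((ae_restrict_iff' hO.measurableSet).2 h)

lemma int_ball (hf : LocallyIntegrableOn f O) {c : ℂ} {s : ℝ} (h : closedBall c s ⊆ O) :
    IntegrableOn f (ball c s) :=
  (hf.integrableOn_compact_subset h (isCompact_closedBall c s)).mono_set ball_subset_closedBall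

lemma mean_le {f f₁ f₂ : ℂ → ℝ} {c : ℂ} {s k p₁ p₂ y₁ y₂ : ℝ} (hs : 0 < s)
    (i : IntegrableOn f (ball c s)) (i₁ : IntegrableOn f₁ (ball c s))
    (i₂ : IntegrableOn f₂ (ball c s)) (h₁ : 0 ≤ p₁) (h₂ : 0 ≤ p₂)
    (m₁ : π * s ^ 2 * y₁ ≤ ∫ z in ball c s, f₁ z) (m₂ : π * s ^ 2 * y₂ ≤ ∫ z in ball c s, f₂ z)
    (h : ∀ᵐ z, z ∈ ball c s → k + p₁ * f₁ z + p₂ * f₂ z ≤ f z) :
    π * s ^ 2 * (k + p₁ * y₁ + p₂ * y₂) ≤ ∫ z in ball c s, f z := by
  have i0 : IntegrableOn (fun _ : ℂ => k) (ball c s) := integrableOn_const measure_ball_lt_top.ne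
  have j₁ : IntegrableOn (fun z => p₁ * f₁ z) (ball c s) := i₁.const_mul _
  have j₂ : IntegrableOn (fun z => p₂ * f₂ z) (ball c s) := i₂.const_mul _
  have j₃ : IntegrableOn (fun z => k + p₁ * f₁ z) (ball c s) := i0.add j₁
  have := setIntegral_mono_on_ae (j₃.add j₂) i measurableSet_ball h
  simp only [Pi.add_apply] at this
  rw [integral_add j₃ j₂, integral_add i0 j₁, integral_const_mul, integral_const_mul,
    setIntegral_const] at this
  have hv : volume.real (ball c s) = π * s ^ 2 := by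
    rw [Measure.real, Complex.volume_ball]
    simp [hs.le, mul_comm]
  rw [hv, smul_eq_mul] at this
  nlinarith [mul_le_mul_of_nonneg_left m₁ h₁, mul_le_mul_of_nonneg_left m₂ h₂]

lemma log_conc {x y p q : ℝ} (hx : 0 < x) (hy : 0 < y) (hp : 0 < p) (hq : 0 < q) (h : p + q = 1) :
    -(p * log p + q * log q) + p * log x + q * log y ≤ log (x + y) := by
  have h1 := log_le_sub_one_of_pos (show 0 < x / (p * (x + y)) by positivity)
  have h2 := log_le_sub_one_of_pos (show 0 < y / (q * (x + y)) by positivity)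
  rw [log_div hx.ne' (by positivity), log_mul hp.ne' (by positivity)] at h1
  rw [log_div hy.ne' (by positivity), log_mul hq.ne' (by positivity)] at h2
  have h3 := mul_le_mul_of_nonneg_left h1 hp.le
  have h4 := mul_le_mul_of_nonneg_left h2 hq.le
  have h5 : p * (x / (p * (x + y)) - 1) + q * (y / (q * (x + y)) - 1) = 0 := by
    have : p * (x / (p * (x + y)) - 1) + q * (y / (q * (x + y)) - 1) = 1 - (p + q) := by
      field_simp; ring
    rw [this, h]; ring
  have h6 : log (x + y) = (p + q) * log (x + y) := by rw [h, one_mul]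
  nlinarith

lemma abs_log_add {x y : ℝ} (hx : 0 ≤ x) (hy : 0 ≤ y) :
    |log (x + y)| ≤ log 2 + (|log x| + |log y|) := by
  wlog h : x ≤ y generalizing x y
  · have := this hy hx (not_le.1 h).le
    rwa [add_comm y x, add_comm |log y|] at this
  have l2 : 0 ≤ log 2 := log_nonneg (by norm_num)
  rcases hy.eq_or_lt with rfl | hy
  · have : x = 0 := le_antisymm h hx
    simp [this, l2]
  have h1 : log y ≤ log (x + y) := log_le_log hy (by linarith)
  have h2 : log (x + y) ≤ log 2 + log y := by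
    rw [← log_mul two_ne_zero hy.ne']; exact log_le_log (by linarith) (by linarith)
  rw [abs_le]
  constructor <;> linarith [abs_nonneg (log x), le_abs_self (log y), neg_abs_le (log y)]

lemma abs_log_mul (x y : ℝ) : |log (x * y)| ≤ |log x| + |log y| := by
  rcases eq_or_ne x 0 with rfl | hx
  · simp
  rcases eq_or_ne y 0 with rfl | hy
  · simp
  rw [log_mul hx hy]; exact abs_add_le _ _

lemma li_abs (hf : LocallyIntegrableOn f O) : LocallyIntegrableOn (fun z => |f z|) O := hf.norm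

lemma li_const (k : ℝ) : LocallyIntegrableOn (fun _ : ℂ => k) O := locallyIntegrableOn_const k

lemma li_mul (hf : LocallyIntegrableOn f O) (k : ℝ) : LocallyIntegrableOn (fun z => k * f z) O :=
  fun x hx => (hf x hx).imp fun _ h => ⟨h.1, h.2.const_mul k⟩

lemma LS.mono (h : LS O a) (H : O' ⊆ O) : LS O' a :=
  ⟨h.nn, h.ms.mono_measure (Measure.restrict_mono H le_rfl), h.li.mono_set H,
    h.sm.mono fun _ a1 a2 a3 s a4 a5 => a1 (H a2) a3 s a4 (a5.trans H)⟩

lemma LS.add (hO : IsOpen O) (ha : LS O a) (hb : LS O b) : LS O fun z => a z + b z := by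
  have li : LocallyIntegrableOn (fun z => log (a z + b z)) O :=
    locInt_of_le hO ((li_const (log 2)).add ((li_abs ha.li).add (li_abs hb.li)))
      (ha.ms.add hb.ms).log (.of_forall fun z _ => abs_log_add (ha.nn z) (hb.nn z))
  refine ⟨fun z => add_nonneg (ha.nn z) (hb.nn z), ha.ms.add hb.ms, li, ?_⟩
  filter_upwards [ha.sm, hb.sm] with c a1 b1 hc hp s hs hO'
  have i := int_ball li hO'
  have ia := int_ball ha.li hO'
  have ib := int_ball hb.li hO'
  rcases (ha.nn c).eq_or_lt with e | pa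
  · obtain ⟨b2, b3⟩ := b1 hc (by linarith) s hs hO'
    refine ⟨b2.mono fun z h hz => by linarith [h hz, ha.nn z], ?_⟩
    have := mean_le (k := 0) hs i ib ib zero_le_one le_rfl b3 b3 (b2.mono fun z h hz => by
      simpa using log_le_log (h hz) (by linarith [ha.nn z]))
    simpa [← e] using this
  obtain ⟨a2, a3⟩ := a1 hc pa s hs hO'
  refine ⟨a2.mono fun z h hz => by linarith [h hz, hb.nn z], ?_⟩
  rcases (hb.nn c).eq_or_lt with e | pb
  · have := mean_le (k := 0) hs i ia ia zero_le_one le_rfl a3 a3 (a2.mono fun z h hz => by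
      simpa using log_le_log (h hz) (by linarith [hb.nn z]))
    simpa [← e] using this
  obtain ⟨b2, b3⟩ := b1 hc pb s hs hO'
  have hp1 : 0 < a c / (a c + b c) := by positivity
  have hp2 : 0 < b c / (a c + b c) := by positivity
  have hs1 : a c / (a c + b c) + b c / (a c + b c) = 1 := by field_simp
  have := mean_le hs i ia ib hp1.le hp2.le a3 b3 (by
    filter_upwards [a2, b2] with z h h' hz using log_conc (h hz) (h' hz) hp1 hp2 hs1)
  convert this using 2
  rw [log_div pa.ne' hp.ne', log_div pb.ne' hp.ne']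
  linear_combination (-log (a c + b c)) * hs1

lemma LS.mul (hO : IsOpen O) (ha : LS O a) (hb : LS O b) : LS O fun z => a z * b z := by
  have li : LocallyIntegrableOn (fun z => log (a z * b z)) O :=
    locInt_of_le hO ((li_abs ha.li).add (li_abs hb.li))
      (ha.ms.mul hb.ms).log (.of_forall fun z _ => abs_log_mul _ _)
  refine ⟨fun z => mul_nonneg (ha.nn z) (hb.nn z), ha.ms.mul hb.ms, li, ?_⟩
  filter_upwards [ha.sm, hb.sm] with c a1 b1 hc hp s hs hO'
  have pa : 0 < a c := (ha.nn c).lt_of_ne fun e => by simp [← e] at hp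
  have pb : 0 < b c := (hb.nn c).lt_of_ne fun e => by simp [← e] at hp
  obtain ⟨a2, a3⟩ := a1 hc pa s hs hO'
  obtain ⟨b2, b3⟩ := b1 hc pb s hs hO'
  refine ⟨by filter_upwards [a2, b2] with z h h' hz using mul_pos (h hz) (h' hz), ?_⟩
  have := mean_le (k := 0) hs (int_ball li hO') (int_ball ha.li hO') (int_ball hb.li hO')
    zero_le_one zero_le_one a3 b3 (by
      filter_upwards [a2, b2] with z h h' hz
      rw [log_mul (h hz).ne' (h' hz).ne']; simp)
  rw [log_mul pa.ne' pb.ne']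
  simpa using this

lemma LS.rpow (ha : LS O a) {p : ℝ} (hp : 0 < p) : LS O fun z => a z ^ p := by
  have e : ∀ z, log (a z ^ p) = p * log (a z) := fun z => by
    rcases (ha.nn z).eq_or_lt with e | e
    · simp [← e, hp.ne']
    · exact log_rpow e p
  refine ⟨fun z => rpow_nonneg (ha.nn z) p, ha.ms.pow_const p, ?_, ?_⟩
  · simp only [e]; exact li_mul ha.li p
  filter_upwards [ha.sm] with c a1 hc h s hs hO'
  have pa : 0 < a c := (ha.nn c).lt_of_ne fun e => by simp [← e, hp.ne'] at h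
  obtain ⟨a2, a3⟩ := a1 hc pa s hs hO'
  refine ⟨a2.mono fun z h hz => rpow_pos_of_pos (h hz) p, ?_⟩
  simp only [e]
  rw [integral_const_mul]
  nlinarith [mul_le_mul_of_nonneg_left a3 hp.le]

lemma LS.congr (hO : IsOpen O) (ha : LS O a) (hb : ∀ z, 0 ≤ b z) (h : ∀ᵐ z, z ∈ O → a z = b z) :
    LS O b := by
  have ms := ha.ms.congr ((ae_restrict_iff' hO.measurableSet).2 h)
  refine ⟨hb, ms, locInt_of_le hO (li_abs ha.li) ms.log (h.mono fun z e hz => by rw [e hz]), ?_⟩
  filter_upwards [ha.sm, h] with c a1 e hc hp s hs hO'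
  rw [← e hc] at hp ⊢
  obtain ⟨a2, a3⟩ := a1 hc hp s hs hO'
  have hs' : ball c s ⊆ O := ball_subset_closedBall.trans hO'
  refine ⟨by filter_upwards [a2, h] with z h1 h2 hz using h2 (hs' hz) ▸ h1 hz, a3.trans_eq ?_⟩
  exact setIntegral_congr_ae measurableSet_ball (h.mono fun z e hz => by rw [e (hs' hz)])

lemma ls_norm (hL : LogSubStmt) (hO : IsOpen O) {h : ℂ → ℂ} (hh : DifferentiableOn ℂ h O) :
    LS O fun z => ‖h z‖ := by
  obtain ⟨h1, h2⟩ := hL O h hO hh
  refine ⟨fun z => norm_nonneg _, hh.continuousOn.norm.aemeasurable hO.measurableSet, h1,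
    .of_forall fun c _ hp s hs hO' => ?_⟩
  obtain ⟨h3, h4⟩ := h2 c s hs hO' (norm_pos_iff.1 hp)
  exact ⟨h3.mono fun z a hz => norm_pos_iff.2 (a hz), h4⟩

lemma ls_sq (hL : LogSubStmt) (hO : IsOpen O) {h : ℂ → ℂ} (hh : DifferentiableOn ℂ h O) :
    LS O fun z => ‖h z‖ ^ 2 := by
  simpa [pow_two] using (ls_norm hL hO hh).mul hO (ls_norm hL hO hh)

lemma ls_const (hL : LogSubStmt) (hO : IsOpen O) {k : ℝ} (hk : 0 ≤ k) : LS O fun _ => k := by
  simpa [abs_of_nonneg hk] using ls_norm hL hO (differentiableOn_const (k : ℂ))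

lemma lg_le {t : ℂ} (h0 : t ≠ 0) (h : ‖t‖ ≤ 1 / 2) : lg t ≤ -1 := by
  have h1 : log ‖t‖ ≤ log (1 / 2) := log_le_log (norm_pos_iff.2 h0) h
  rw [one_div, log_inv] at h1
  rw [lg_eq]
  linarith [log_two_gt_d9]

lemma ls_invlog (hL : LogSubStmt) (hO : IsOpen O) {h : ℂ → ℂ} (hh : DifferentiableOn ℂ h O)
    (hb : ∀ z ∈ O, ‖h z‖ ≤ 1 / 2) : LS O fun z => (lg (h z) ^ 2)⁻¹ := by
  have l := ls_norm hL hO hh
  have ms : AEMeasurable (fun z => (lg (h z) ^ 2)⁻¹) (volume.restrict O) :=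
    ((l.ms.pow_const 2).log.pow_const 2).inv
  have e : ∀ z, log ((lg (h z) ^ 2)⁻¹) = -2 * log (-lg (h z)) := fun z => by simp
  have li : LocallyIntegrableOn (fun z => log ((lg (h z) ^ 2)⁻¹)) O := by
    refine locInt_of_le hO (li_mul (li_abs l.li) 4) ms.log (.of_forall fun z hz => ?_)
    rcases eq_or_ne (h z) 0 with e0 | e0
    · simp [e0, lg]
    have h1 := lg_le e0 (hb z hz)
    have h2 : 0 ≤ log (-lg (h z)) := log_nonneg (by linarith)
    have h3 := log_le_sub_one_of_pos (show 0 < -lg (h z) by linarith)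
    rw [e, abs_of_nonpos (by linarith)]
    rw [lg_eq] at h3 h1 ⊢
    linarith [neg_abs_le (log ‖h z‖)]
  refine ⟨fun z => by positivity, ms, li, ?_⟩
  filter_upwards [l.sm] with c a1 hc hp s hs hO'
  have h0 : h c ≠ 0 := fun e => by simp [e, lg] at hp
  obtain ⟨a2, a3⟩ := a1 hc (norm_pos_iff.2 h0) s hs hO'
  have hs' : ball c s ⊆ O := ball_subset_closedBall.trans hO'
  have t0 := lg_le h0 (hb c hc)
  refine ⟨a2.mono fun z h1 hz => ?_, ?_⟩
  · have := lg_le (norm_pos_iff.1 (h1 hz)) (hb z (hs' hz))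
    have : lg (h z) ≠ 0 := by linarith
    positivity
  have := mean_le (k := -2 * log (-lg (h c)) + 2) (p₁ := 4 / (-lg (h c))) hs (int_ball li hO')
    (int_ball l.li hO') (int_ball l.li hO') (div_nonneg (by norm_num) (by linarith)) le_rfl a3 a3
    (a2.mono fun z h1 hz => by
      have t1 := lg_le (norm_pos_iff.1 (h1 hz)) (hb z (hs' hz))
      have h3 := log_le_sub_one_of_pos
        (div_pos (show 0 < -lg (h z) by linarith) (show 0 < -lg (h c) by linarith))
      rw [log_div (by linarith) (by linarith)] at h3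
      have h4 : 4 / (-lg (h c)) * log ‖h z‖ = -2 * (-lg (h z) / -lg (h c)) := by
        rw [lg_eq (h z)]; ring
      rw [e, h4]
      linarith)
  convert this using 2
  have h4 : 4 / (-lg (h c)) * log ‖h c‖ = -2 := by
    have : lg (h c) ≠ 0 := by linarith
    rw [show log ‖h c‖ = lg (h c) / 2 by rw [lg_eq]; ring]
    field_simp
    norm_num
  rw [e, h4]; ring

lemma ls_basic (hL : LogSubStmt) (hO : IsOpen O) {b g : ℂ → ℂ} {m : ℕ} (hm : 0 < m)
    (hr : ∀ z ∈ O, Rem (fun w => b w * g w ^ m) z) (hb : ∀ᵐ z, z ∈ O → b z ≠ 0) :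
    LS O fun z => exp (log (‖b z‖ ^ 2) / m) * ‖g z‖ ^ 2 := by
  obtain ⟨h, h1, -, h2⟩ := rem_on hO hr
  have hm' : (0 : ℝ) < m := by exact_mod_cast hm
  refine ((ls_sq hL hO h1).rpow (inv_pos.2 hm')).congr hO (fun z => by positivity) ?_
  filter_upwards [h2, hb] with z e1 e2 hz
  have hp : 0 < ‖b z‖ ^ 2 := pow_pos (norm_pos_iff.2 (e2 hz)) 2
  rw [← e1 hz, norm_mul, norm_pow, mul_pow, mul_rpow hp.le (by positivity), rpow_def_of_pos hp,
    ← pow_mul, mul_comm m 2, pow_mul, pow_rpow_inv_natCast (by positivity) hm.ne', div_eq_mul_inv]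

lemma LS.as (hS : SubMeanStmt) (hO : IsOpen O) (ha : LS O a) {v : ℂ → ℝ}
    (h : ∀ᵐ z, z ∈ O → 0 < a z ∧ v z = log (a z)) : AS O v 0 0 := by
  refine hS O v hO (locInt_of_le hO (li_abs ha.li) (ha.ms.log.congr
    ((ae_restrict_iff' hO.measurableSet).2 (h.mono fun z e hz => (e hz).2.symm)))
    (h.mono fun z e hz => by rw [(e hz).2])) ?_
  filter_upwards [ha.sm, h] with c a1 e hc s hs hO'
  rw [(e hc).2]
  refine (a1 hc (e hc).1 s hs hO').2.trans_eq ?_
  exact setIntegral_congr_ae measurableSet_ball (h.mono fun z e hz => by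
    rw [(e (hO' (ball_subset_closedBall hz))).2])

lemma valid_of_ls (hS : SubMeanStmt) {C : Ctx} (hC : C.Ok) {O : ℕ → Set ℂ} {A v e' : ℕ → ℂ → ℝ}
    {a η : ℝ} (h : ∀ᶠ k in atTop, IsOpen (O k) ∧ LS (O k) (A k) ∧ ∀ᵐ z, z ∈ O k →
      (0 < A k z ∧ v k z = log (A k z)) ∧ 0 ≤ e' k z ∧ C.u k z + v k z ≤ a + log (1 + e' k z))
    (hf : Fn C O e') : Valid C O v η := by
  refine ⟨fun _ => 0, e', fun _ => 0, a, ?_, Sm.zero hC (by simp), Sm.zero hC (by simp), hf⟩
  filter_upwards [h] with k ⟨h1, h2, h3⟩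
  exact ⟨h2.as hS h1 (h3.mono fun z b hz => (b hz).1), h3.mono fun z b hz => (b hz).2⟩

end Pool.Agent.MP_c69980_ag.H75
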