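import Pool.Agent.MP_c69980_ag.H75.Node0

/-!
The potential at a node.
-/

set_option autoImplicit false

noncomputable section

namespace Pool.Agent.MP_c69980_ag.H75

open MvPolynomial Metric Filter Topology MeasureTheory Set Real
open scoped ContDiff
open H4

lemma log_sq_le {R t : ℝ} (h1 : 1 / 4 ≤ R) (h2 : R ≤ 1 + t) (ht : 0 ≤ t) :
    log R ^ 2 ≤ 4 + 2 * t := by
  have hR : 0 < R := by linarith
  rcases le_total R 1 with h | h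
  · have a1 : log R ≤ 0 := log_nonpos hR.le h
    have a2 : log (1 / 4) ≤ log R := log_le_log (by norm_num) h1
    have a3 : log (1 / 4 : ℝ) = -(2 * log 2) := by
      rw [one_div, log_inv, show (4 : ℝ) = 2 ^ 2 by norm_num, log_pow]; norm_num
    nlinarith [log_two_lt_d9, ht]
  · have a1 : 0 ≤ log R := log_nonneg h
    have a2 := quadratic_le_exp_of_nonneg a1
    rw [exp_log hR] at a2
    linarith

lemma small_lg {ε : ℝ} (h : 0 < ε) : ∃ δ > 0, ∀ t : ℂ, ‖t‖ < δ → ‖t‖ ^ 2 * lg t ^ 2 ≤ ε := by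
  have c : Continuous fun x : ℝ => 4 * (x * log x) ^ 2 :=
    continuous_const.mul (continuous_mul_log.pow 2)
  obtain ⟨δ, h0, h1⟩ := Metric.eventually_nhds_iff.1
    ((c.tendsto 0).eventually_lt_const (u := ε) (by simpa using h))
  refine ⟨δ, h0, fun t ht => ?_⟩
  have := h1 (y := ‖t‖) (by simpa using ht)
  rw [lg_eq]
  nlinarith

variable {C : Ctx} {c : Ch} {G K : Set (Fin 2 → ℂ)} {a η : ℝ} {i j : Fin 2} {k : ℕ} {z : ℂ}

/-- The pointwise estimate on the annulus. -/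
lemma key_est (hij : i ≠ j) {ρ : ℝ} (h0 : 0 < ρ) (h1 : ρ < 1) (hN : c.N2 k z ≠ 0)
    (hx : ∀ l, c.x l k z ≠ 0) (hb : ∀ l, ‖c.x l k z‖ ≤ 1 / 2)
    (a1 : ρ ^ 2 ≤ ‖c.x j k z‖) (a2 : ‖c.x j k z‖ ≤ ρ)
    (hs : ‖c.x i k z‖ ^ 2 * lg (c.x i k z) ^ 2 ≤ log (ρ ^ 2) ^ 2 * (ρ ^ 2) ^ 2) :
    (nP C c (log (ρ ^ 2)) k z - sP C c i k z) ^ 2 * Pc (c.x j k) z ≤
      4 * Pc (c.x j k) z + 2 * log (ρ ^ 2) ^ 2 * ((ρ ^ 2) ^ 2)⁻¹ * Pc (c.x i k) z := by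
  obtain ⟨-, b1, b2⟩ := ann h0 a1 a2
  have hL := logsq_neg h0 h1
  set L := log (ρ ^ 2) with hLd
  have p : 0 < c.N2 k z := N2_nonneg.lt_of_ne hN.symm
  have pn := nA_pos (q := c.pt k z) hx hb (dv_ne hN)
  have pi := norm_pos_iff.2 (hx i)
  have pj := norm_pos_iff.2 (hx j)
  have li : lg (c.x i k z) ≠ 0 := by linarith [lg_le (hx i) (hb i)]
  have lj : lg (c.x j k z) ≠ 0 := by linarith
  have hL0 : L ≠ 0 := hL.ne
  have hP := Pc_nonneg (c.x i k) z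
  have hQ := Pc_nonneg (c.x j k) z
  set α := L ^ 2 * ‖c.x j k z‖ ^ 2 / (‖c.x i k z‖ ^ 2 * lg (c.x i k z) ^ 2) with hα
  set β := L ^ 2 / lg (c.x j k z) ^ 2 with hβ
  have e : nP C c L k z - sP C c i k z =
      log ((α * ‖deriv (c.x i k) z‖ ^ 2 + β * ‖deriv (c.x j k) z‖ ^ 2) / c.N2 k z) := by
    have : (α * ‖deriv (c.x i k) z‖ ^ 2 + β * ‖deriv (c.x j k) z‖ ^ 2) / c.N2 k z =
        nA (c.pt k z) (c.dv k z) * L ^ 2 / (‖c.x i k z‖ ^ 2 * c.N2 k z) := by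
      rw [nA_eq hij, hα, hβ]
      simp only [Ch.pt, Ch.dv, norm_mul]
      field_simp
    rw [this, log_div (by positivity) (by positivity), log_mul pn.ne' (by positivity),
      log_mul (by positivity) p.ne', nP, sP, lg]
    ring
  have q1 : 1 ≤ α := by
    rw [hα, le_div_iff₀ (by positivity), one_mul]
    exact hs.trans (mul_le_mul_of_nonneg_left (pow_le_pow_left₀ (by positivity) a1 2) (sq_nonneg _))
  have q2 : 1 / 4 ≤ β := by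
    rw [hβ, le_div_iff₀ (by positivity)]; nlinarith
  have q3 : β ≤ 1 := by
    rw [hβ, div_le_one (by positivity)]; nlinarith
  have q4 : α * ‖deriv (c.x i k) z‖ ^ 2 ≤ L ^ 2 * Pc (c.x i k) z := by
    have : α * ‖deriv (c.x i k) z‖ ^ 2 = ‖c.x j k z‖ ^ 2 * (L ^ 2 * Pc (c.x i k) z) := by
      rw [hα]; simp only [Pc, lg]; ring
    rw [this]
    refine mul_le_of_le_one_left (by positivity) ?_
    nlinarith [hb j]
  have s1 := sq_nonneg ‖deriv (c.x i k) z‖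
  have s2 := sq_nonneg ‖deriv (c.x j k) z‖
  have hN2 := N2_eq (c := c) (k := k) (z := z) hij
  have m := log_sq_le (R := (α * ‖deriv (c.x i k) z‖ ^ 2 + β * ‖deriv (c.x j k) z‖ ^ 2) / c.N2 k z)
    (t := L ^ 2 * Pc (c.x i k) z / c.N2 k z)
    (by rw [le_div_iff₀ p, hN2]; nlinarith)
    (by rw [one_add_div p.ne', div_le_div_iff_of_pos_right p, hN2]; nlinarith) (by positivity)
  have q5 : Pc (c.x j k) z / c.N2 k z ≤ ((ρ ^ 2) ^ 2)⁻¹ := by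
    rw [div_le_iff₀ p]
    exact (Pc_le (by positivity) a1 (hb j)).trans
      (mul_le_mul_of_nonneg_left (le_N2 j) (by positivity))
  rw [e]
  refine (mul_le_mul_of_nonneg_right m hQ).trans ?_
  have : (4 + 2 * (L ^ 2 * Pc (c.x i k) z / c.N2 k z)) * Pc (c.x j k) z = 4 * Pc (c.x j k) z +
      2 * L ^ 2 * (Pc (c.x j k) z / c.N2 k z) * Pc (c.x i k) z := by ring
  rw [this]
  gcongr

lemma Sm.ext0 {O O' : ℕ → Set ℂ} {e : ℕ → ℂ → ℝ} (hC : C.Ok) (h : Sm C O' e η) (hη : 0 ≤ η)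
    (H : ∀ k, ∀ z ∈ O k, z ∉ O' k → e k z ≤ 0) : Sm C O e η := by
  have := Sm.cases (O := O) (e := e) hC h (Sm.zero (O := O) (e := fun _ _ => 0) (η := 0) hC
    (by simp)) hη le_rfl (.of_forall fun k => .of_forall fun z hz => by
      by_cases h : z ∈ O' k
      · exact Or.inl ⟨h, le_rfl⟩
      · exact Or.inr ⟨hz, H k z hz h⟩)
  simpa using this

lemma NH.smY (H : NH C c G a) (j : Fin 2) {A : ℝ} (hA : 0 < A) (hη : 0 < η) :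
    ∃ ρ₀ > 0, ∀ ρ < ρ₀, Sm C (dom C c G) (fun k => Yc A ρ (c.x j k)) η := by
  obtain ⟨δ, h0, h1⟩ := H.f2 j (η / A) (by positivity)
  refine ⟨δ, h0, fun ρ hρ => Sm.ext0 (O' := fun k => {z | z ∈ dom C c G k ∧
    ρ ^ 2 ≤ ‖c.x j k z‖ ∧ ‖c.x j k z‖ ≤ ρ}) H.ok ?_ hη.le fun k z hz h => ?_⟩
  · exact (h1.smul hA.le).mono H.ok (by rw [mul_div_cancel₀ _ hA.ne'])
      (.of_forall fun k => .of_forall fun z hz =>
        ⟨⟨dom_mono (subset_univ _) hz.1, hz.2.2.trans_lt hρ⟩, by rw [Yc, if_pos hz.2]⟩)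
  · rw [Yc, if_neg fun b => h ⟨hz, b⟩]

lemma NH.smd (H : NH C c G a) (hij : i ≠ j) {A : ℝ} (hA : 0 < A) (hη : 0 < η) :
    ∃ ρ₀ > 0, ∀ ρ, 0 < ρ → ρ < 1 → ρ < ρ₀ → ∀ d : ℕ → ℂ → ℝ,
      (∀ k z, ‖c.x i k z‖ ≤ ρ ^ 2 → d k z = nP C c (log (ρ ^ 2)) k z - sP C c i k z) →
      (∀ K, IsCompact K → K ⊆ closedBall 0 (1 / 2) → (∀ q ∈ K, ∀ l, q l ≠ 0) →
        Null C (dom C c K) fun k z => d k z ^ 2 * c.N2 k z) →
      Sm C (dom C c G) (fun k z => d k z ^ 2 * Yc A ρ (c.x j k) z) η := by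
  obtain ⟨δ, h0, h1⟩ := H.f2 j (η / 3 / (4 * A)) (by positivity)
  refine ⟨δ, h0, fun ρ r0 r1 hρ d d1 d2 => ?_⟩
  have hL := (logsq_neg r0 r1).ne
  set B := A * (2 * log (ρ ^ 2) ^ 2 * ((ρ ^ 2) ^ 2)⁻¹) with hB
  have B0 : 0 < B := by positivity
  obtain ⟨δ₁, h2, h3⟩ := H.f2 i (η / 3 / B) (by positivity)
  obtain ⟨δ₂, h4, h5⟩ := small_lg (ε := log (ρ ^ 2) ^ 2 * (ρ ^ 2) ^ 2) (by positivity)
  set δ₃ := min δ₁ (min δ₂ (ρ ^ 2)) with hδ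
  have h6 : 0 < δ₃ := by positivity
  let K : Set (Fin 2 → ℂ) := closedBall 0 (1 / 2) ∩ ({q | δ₃ ≤ ‖q i‖} ∩ {q | ρ ^ 2 ≤ ‖q j‖})
  have k1 : IsCompact K := (isCompact_closedBall _ _).inter_right
    ((closed_ge _ _).inter (closed_ge _ _))
  have k2 := (d2 K k1 inter_subset_left fun q hq l => by
    have a1 : q i ≠ 0 := norm_pos_iff.1 (h6.trans_le hq.2.1)
    have a2 : q j ≠ 0 := norm_pos_iff.1 ((pow_pos r0 2).trans_le hq.2.2)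
    rcases fin2 hij with ⟨rfl, rfl⟩ | ⟨rfl, rfl⟩ <;> fin_cases l <;> assumption).smul
      (t := A * ((ρ ^ 2) ^ 2)⁻¹) (by positivity) (η / 3) (by positivity)
  let O₁ : ℕ → Set ℂ := fun k => {z | z ∈ dom C c univ k ∧ ‖c.x j k z‖ < δ ∧ ‖c.x i k z‖ < δ₁}
  have s1 : Sm C O₁ (fun k z => 4 * A * Pc (c.x j k) z) (η / 3) :=
    (h1.smul (t := 4 * A) (by positivity)).mono H.ok (by rw [mul_div_cancel₀ _ (by positivity)])
      (.of_forall fun k => .of_forall fun z hz => ⟨⟨hz.1, hz.2.1⟩, le_rfl⟩)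
  have s2 : Sm C O₁ (fun k z => B * Pc (c.x i k) z) (η / 3) :=
    (h3.smul B0.le).mono H.ok (by rw [mul_div_cancel₀ _ B0.ne'])
      (.of_forall fun k => .of_forall fun z hz => ⟨⟨hz.1, hz.2.2⟩, le_rfl⟩)
  refine Sm.ext0 (O' := fun k => {z | z ∈ dom C c G k ∧
    ρ ^ 2 ≤ ‖c.x j k z‖ ∧ ‖c.x j k z‖ ≤ ρ}) H.ok ?_ hη.le fun k z hz h => ?_
  · have := Sm.cases (O := fun k => {z | z ∈ dom C c G k ∧ ρ ^ 2 ≤ ‖c.x j k z‖ ∧ ‖c.x j k z‖ ≤ ρ})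
      (e := fun k z => d k z ^ 2 * Yc A ρ (c.x j k) z) H.ok
      (s1.add H.ok s2 (by positivity) (by positivity)) k2 (by positivity) (by positivity) ?_
    · rwa [add_thirds] at this
    filter_upwards [H.ae] with k hk
    filter_upwards [hk] with z b hz
    obtain ⟨n1, -, n3⟩ := b hz.1.1
    rw [Yc, if_pos hz.2]
    by_cases h : ‖c.x i k z‖ < δ₃
    · rw [lt_min_iff, lt_min_iff] at h
      refine Or.inl ⟨⟨dom_mono (subset_univ _) hz.1, hz.2.2.trans_lt hρ, h.1⟩, ?_⟩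
      have := mul_le_mul_of_nonneg_left (key_est (C := C) hij r0 r1 n1 n3 (H.half hz.1) hz.2.1 hz.2.2
        (h5 _ h.2.1)) hA.le
      rw [d1 k z h.2.2.le, hB]
      linarith
    · refine Or.inr ⟨⟨hz.1.1, hz.1.2.1, H.sub' hz.1.2.2, not_lt.1 h, hz.2.1⟩, ?_⟩
      have := mul_le_mul_of_nonneg_left ((Pc_le (by positivity) hz.2.1 (H.half hz.1 j)).trans
        (mul_le_mul_of_nonneg_left (le_N2 j) (by positivity)))
        (mul_nonneg (sq_nonneg (d k z)) hA.le)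
      linarith
  · rw [Yc, if_neg fun b => h ⟨hz, b⟩, mul_zero]

lemma conv_sq {t x y N : ℝ} (h0 : 0 ≤ t) (h1 : t ≤ 1) (hN : 0 ≤ N) :
    (t * x + (1 - t) * y) ^ 2 * N ≤ x ^ 2 * N + y ^ 2 * N := by
  rw [← add_mul]
  refine mul_le_mul_of_nonneg_right ?_ hN
  nlinarith [mul_nonneg (mul_nonneg h0 (sub_nonneg.2 h1)) (sq_nonneg (x - y)),
    mul_nonneg h0 (sq_nonneg y), mul_nonneg (sub_nonneg.2 h1) (sq_nonneg x)]

lemma NH.cut_ok (H : NH C c G a) (j : Fin 2) {A ρ : ℝ} (r0 : 0 < ρ) (r1 : ρ < 1)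
    (hA : ∀ (v : ℂ → ℂ) (z : ℂ), AnalyticAt ℂ v z → ContDiffAt ℝ ∞ (fun w => chi ρ (v w)) z ∧
      ‖grad (fun w => chi ρ (v w)) z‖ ^ 2 ≤ Yc A ρ v z ∧
      |lap (fun w => chi ρ (v w)) z| ≤ Yc A ρ v z) :
    ∀ᶠ k in atTop, IsOpen (dom C c G k) ∧ IsOpen (dom C c G k) ∧
      IsOpen (dom C c (G ∩ {q | ρ ^ 2 / 2 < ‖q j‖}) k) ∧
      ContDiffOn ℝ ∞ (fun w => chi ρ (c.x j k w)) (dom C c G k) ∧ ∀ z ∈ dom C c G k,
        0 ≤ chi ρ (c.x j k z) ∧ chi ρ (c.x j k z) ≤ 1 ∧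
        (z ∉ dom C c G k → (fun w => chi ρ (c.x j k w)) =ᶠ[𝓝 z] 0) ∧
        (z ∉ dom C c (G ∩ {q | ρ ^ 2 / 2 < ‖q j‖}) k → (fun w => chi ρ (c.x j k w)) =ᶠ[𝓝 z] 1) ∧
        ‖grad (fun w => chi ρ (c.x j k w)) z‖ ^ 2 ≤ Yc A ρ (c.x j k) z ∧
        |lap (fun w => chi ρ (c.x j k w)) z| ≤ Yc A ρ (c.x j k) z := by
  refine .of_forall fun k => ⟨dom_open H.ok H.op k, dom_open H.ok H.op k,
    dom_open H.ok (H.op.inter (open_gt j _)) k,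
    fun z hz => (hA _ z (hz.2.1 j)).1.contDiffWithinAt, fun z hz =>
    ⟨(chi_mem _ _).1, (chi_mem _ _).2, fun h => absurd hz h, fun h => ?_,
      (hA _ z (hz.2.1 j)).2⟩⟩
  refine chi_ev_one r0 r1 (hz.2.1 j).continuousAt ?_
  by_contra h'
  exact h ⟨hz.1, hz.2.1, hz.2.2, (half_lt_self (pow_pos r0 2)).trans_le (not_lt.1 h')⟩

theorem node (hL : LogSubStmt) (hS : SubMeanStmt) (hR : LapRuleStmt) (hV : VPatchStmt)
    (hT : TCStmt) : NodeStmt := by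
  intro C c G a hC hc hθ f0 f1 hG hs hev η r hη hr
  have H : NH C c G a := ⟨hC, hc, hθ, fun i => by fin_cases i; exacts [f0, f1], hG, hs,
    hev.mono fun k h => ⟨h.1, fun z hz i j hij => by
      rcases fin2 hij with ⟨rfl, rfl⟩ | ⟨rfl, rfl⟩
      exacts [(h.2 z hz).1, (h.2 z hz).2]⟩⟩
  obtain ⟨A, A0, hA⟩ := chi_bd hR
  obtain ⟨η₂, p2, V2⟩ := hV η 1 hη
  obtain ⟨η₁, p1, V1⟩ := hV η₂ 1 p2
  obtain ⟨ρ₁, q1, Y1⟩ := H.smY 1 A0 one_pos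
  obtain ⟨ρ₂, q2, Y2⟩ := H.smY 0 A0 one_pos
  obtain ⟨ρ₃, q3, D1⟩ := H.smd (i := 0) (j := 1) (by decide) A0 p1
  obtain ⟨ρ₄, q4, D2⟩ := H.smd (i := 1) (j := 0) (by decide) A0 p2
  obtain ⟨ρ, r0, hρ⟩ := exists_between
    (show 0 < min (min (min ρ₁ ρ₂) (min ρ₃ ρ₄)) (min r 1) by positivity)
  simp only [lt_min_iff] at hρ
  obtain ⟨⟨⟨l1, l2⟩, l3, l4⟩, l5, r1⟩ := hρ
  have hL0 := (logsq_neg r0 r1).ne
  have hδ : 0 < ρ ^ 2 / 2 := by positivity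
  have v1 := V1 C _ _ _ (nP C c (log (ρ ^ 2))) (sP C c 0) (fun k w => chi ρ (c.x 1 k w)) _ hC
    (H.cut_ok 1 r0 r1 (hA ρ r0 r1)) (H.valid_n hL hS hL0) (H.valid_s hL hS (by decide) hδ)
    (Y1 ρ l1) (D1 ρ r0 r1 l3 _ (fun _ _ _ => rfl) fun K a1 a2 a3 => H.tc_n hT _ 0 a1 a2 a3)
  have v2 := V2 C _ _ _ _ (sP C c 1) (fun k w => chi ρ (c.x 0 k w)) _ hC
    (H.cut_ok 0 r0 r1 (hA ρ r0 r1)) v1 (H.valid_s hL hS (by decide) hδ) (Y2 ρ l2)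
    (D2 ρ r0 r1 l4 _ (fun k z h => by rw [chi_one r0 r1 h]; ring) fun K a1 a2 a3 =>
      ((H.tc_n hT (log (ρ ^ 2)) 1 a1 a2 a3).add hC (H.tc_ss hT 0 1 a1 a3)).mono hC
        (.of_forall fun k => .of_forall fun z hz => ⟨hz, by
          convert conv_sq (chi_mem ρ (c.x 1 k z)).1 (chi_mem ρ (c.x 1 k z)).2 N2_nonneg using 3
          ring⟩))
  refine ⟨_, v2, fun K k1 k2 k3 => ?_⟩
  have t1 := H.tc_s hT (i := 1) (j := 0) (by decide) (k1.inter_right (closed_ge 0 (ρ ^ 2)))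
    fun q hq => norm_pos_iff.1 ((pow_pos r0 2).trans_le hq.2)
  have t0 := H.tc_s hT (i := 0) (j := 1) (by decide) (k1.inter_right (closed_ge 1 ρ))
    fun q hq => norm_pos_iff.1 (r0.trans_le hq.2)
  intro ε hε
  refine ((t1 _ (half_pos hε)).ind.add hC (t0 _ (half_pos hε)).ind (half_pos hε).le
    (half_pos hε).le).mono hC (by rw [add_halves])
    (.of_forall fun k => .of_forall fun z hz => ⟨trivial, ?_⟩)
  have i1 : ∀ (S : Set ℂ) (f : ℂ → ℝ), 0 ≤ S.indicator (fun z => max (f z) 0) z := fun S f =>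
    indicator_nonneg (fun _ _ => le_max_right _ _) z
  have hρ2 : ρ ^ 2 ≤ ρ := by nlinarith
  beta_reduce
  by_cases c0 : ρ ≤ ‖c.x 0 k z‖
  · rw [indicator_of_mem (show z ∈ dom C c (K ∩ {q | ρ ^ 2 ≤ ‖q 0‖}) k from
      ⟨hz.1, hz.2.1, hz.2.2, hρ2.trans c0⟩), chi_zero r0 r1 c0]
    refine le_add_of_le_of_nonneg (le_max_of_le_left (le_of_eq ?_)) (i1 _ _)
    ring
  have c1 : ρ ≤ ‖c.x 1 k z‖ := by
    by_contra c1
    have h1 := k3 _ hz.2.2 0 rfl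
    rw [dist_zero_right] at h1
    have h2 : ‖c.pt k z‖ < ρ := (pi_norm_lt_iff r0).2 fun l => by
      fin_cases l
      exacts [not_le.1 c0, not_le.1 c1]
    linarith
  rw [indicator_of_mem (show z ∈ dom C c (K ∩ {q | ρ ≤ ‖q 1‖}) k from
    ⟨hz.1, hz.2.1, hz.2.2, c1⟩), chi_zero r0 r1 c1]
  by_cases c2 : ‖c.x 0 k z‖ ≤ ρ ^ 2
  · rw [chi_one r0 r1 c2]
    refine le_add_of_nonneg_of_le (i1 _ _) (le_max_of_le_left (le_of_eq ?_))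
    ring
  · rw [indicator_of_mem (show z ∈ dom C c (K ∩ {q | ρ ^ 2 ≤ ‖q 0‖}) k from
      ⟨hz.1, hz.2.1, hz.2.2, (not_le.1 c2).le⟩)]
    refine le_trans ?_ (add_le_add (le_max_left _ _) (le_max_left _ _))
    refine le_trans (le_of_eq ?_) ((conv_sq (chi_mem ρ (c.x 0 k z)).1
      (chi_mem ρ (c.x 0 k z)).2 N2_nonneg).trans_eq (add_comm _ _))
    ring

end Pool.Agent.MP_c69980_ag.H75
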