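import Pool.Agent.MP_c69980_ag.H75.Cut

/-!
The three model potentials at a node.
-/

set_option autoImplicit false

noncomputable section

namespace Pool.Agent.MP_c69980_ag.H75

open MvPolynomial Metric Filter Topology MeasureTheory Set Real
open scoped ContDiff
open H4

lemma fin2 {i j : Fin 2} (h : i ≠ j) : (i = 0 ∧ j = 1) ∨ (i = 1 ∧ j = 0) := by
  fin_cases i <;> fin_cases j <;> simp at h ⊢

lemma sq_eq {i j : Fin 2} (h : i ≠ j) (w : Fin 2 → ℂ) : H4.sq w = ‖w i‖ ^ 2 + ‖w j‖ ^ 2 := by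
  rcases fin2 h with ⟨rfl, rfl⟩ | ⟨rfl, rfl⟩ <;> simp [H4.sq, add_comm]

lemma sq_pos {w : Fin 2 → ℂ} (h : w ≠ 0) : 0 < H4.sq w := by
  obtain ⟨i, hi⟩ := Function.ne_iff.1 h
  exact Finset.sum_pos' (fun _ _ => by positivity)
    ⟨i, Finset.mem_univ _, pow_pos (norm_pos_iff.2 hi) 2⟩

lemma sq_smul (t : ℝ) (w : Fin 2 → ℂ) : H4.sq (t • w) = t ^ 2 * H4.sq w := by
  simp [H4.sq, mul_pow, mul_add]

lemma sq_cont : Continuous fun w : Fin 2 → ℂ => H4.sq w := by unfold H4.sq; fun_prop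

/-- The Poincare type form at a node. -/
def nA (q w : Fin 2 → ℂ) : ℝ :=
  ‖q 1 * w 0‖ ^ 2 * (lg (q 0) ^ 2)⁻¹ + ‖q 0 * w 1‖ ^ 2 * (lg (q 1) ^ 2)⁻¹

lemma nA_eq {i j : Fin 2} (h : i ≠ j) (q w : Fin 2 → ℂ) :
    nA q w = ‖q j * w i‖ ^ 2 * (lg (q i) ^ 2)⁻¹ + ‖q i * w j‖ ^ 2 * (lg (q j) ^ 2)⁻¹ := by
  rcases fin2 h with ⟨rfl, rfl⟩ | ⟨rfl, rfl⟩ <;> simp only [nA, add_comm]

lemma nA_pos {q w : Fin 2 → ℂ} (h0 : ∀ i, q i ≠ 0) (h1 : ∀ i, ‖q i‖ ≤ 1 / 2) (hw : w ≠ 0) :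
    0 < nA q w := by
  have l : ∀ i, lg (q i) ≠ 0 := fun i => by linarith [lg_le (h0 i) (h1 i)]
  obtain ⟨i, hi⟩ := Function.ne_iff.1 hw
  obtain ⟨j, hj⟩ := exists_ne i
  rw [nA_eq hj.symm]
  have := norm_pos_iff.2 (mul_ne_zero (h0 j) hi)
  have := l i
  positivity

lemma nA_smul (t : ℝ) (q w : Fin 2 → ℂ) : nA q (t • w) = t ^ 2 * nA q w := by
  simp [nA, mul_pow]; ring

def nP (C : Ctx) (c : Ch) (L : ℝ) (k : ℕ) (z : ℂ) : ℝ :=
  Bb C c k z + log (nA (c.pt k z) (c.dv k z)) + log (L ^ 2)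

def sP (C : Ctx) (c : Ch) (i : Fin 2) (k : ℕ) (z : ℂ) : ℝ :=
  Bb C c k z + lg (c.x i k z) + log (c.N2 k z)

/-- The hypotheses at a node. -/
structure NH (C : Ctx) (c : Ch) (G : Set (Fin 2 → ℂ)) (a : ℝ) : Prop where
  ok : C.Ok
  ch : ChOK C c
  th : c.θ = X 0 * X 1
  f2 : ∀ i, F2 C (dom C c univ) (c.x i)
  op : IsOpen G
  sub : G ⊆ ball 0 (1 / 2)
  ev : ∀ᶠ k in atTop, (∀ᵐ z, z ∈ dom C c G k →
      C.u k z + Bb C c k z + log (‖c.x 0 k z * c.x 1 k z‖ ^ 2) ≤ a) ∧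
    ∀ z ∈ dom C c G k, ∀ i j, i ≠ j →
      Rem (fun w => c.b k w * (c.x j k w * deriv (c.x i k) w) ^ C.m) z

variable {C : Ctx} {c : Ch} {G K : Set (Fin 2 → ℂ)} {a η : ℝ} {i j : Fin 2} {k : ℕ} {z : ℂ}

lemma dv_ne (h : c.N2 k z ≠ 0) : c.dv k z ≠ 0 := fun e => h (by simp [Ch.N2, e, H4.sq])

lemma N2_eq (h : i ≠ j) : c.N2 k z = ‖deriv (c.x i k) z‖ ^ 2 + ‖deriv (c.x j k) z‖ ^ 2 :=
  sq_eq h _

lemma le_N2 (i : Fin 2) : ‖deriv (c.x i k) z‖ ^ 2 ≤ c.N2 k z := by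
  obtain ⟨j, hj⟩ := exists_ne i
  rw [N2_eq hj.symm]
  linarith [sq_nonneg ‖deriv (c.x j k) z‖]

lemma half {q : Fin 2 → ℂ} (h : q ∈ closedBall (0 : Fin 2 → ℂ) (1 / 2)) (i : Fin 2) :
    ‖q i‖ ≤ 1 / 2 := (norm_le_pi_norm q i).trans (mem_closedBall_zero_iff.1 h)

lemma NH.sub' (H : NH C c G a) : G ⊆ closedBall 0 (1 / 2) := H.sub.trans ball_subset_closedBall

lemma NH.half (H : NH C c G a) (h : z ∈ dom C c G k) (i : Fin 2) : ‖c.x i k z‖ ≤ 1 / 2 :=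
  H75.half (H.sub' h.2.2) i

lemma NH.ae (H : NH C c G a) : ∀ᶠ k in atTop, ∀ᵐ z, z ∈ C.Ω k →
    c.N2 k z ≠ 0 ∧ c.b k z ≠ 0 ∧ ∀ i, c.x i k z ≠ 0 := by
  filter_upwards [H.ch.1] with k hk
  filter_upwards [hk.2] with z h hz
  obtain ⟨h1, h2, h3⟩ := h hz
  simp only [Ch.ev, H.th, map_mul, eval_X, Ch.pt, mul_ne_zero_iff] at h3
  exact ⟨h1, h2, fun i => by fin_cases i; exacts [h3.1, h3.2]⟩

lemma x_diff (i : Fin 2) : DifferentiableOn ℂ (c.x i k) (dom C c G k) :=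
  fun _ hz => (hz.2.1 i).differentiableAt.differentiableWithinAt

lemma Pc_le {v : ℂ → ℂ} {δ : ℝ} (h0 : 0 < δ) (h1 : δ ≤ ‖v z‖) (h2 : ‖v z‖ ≤ 1 / 2) :
    Pc v z ≤ (δ ^ 2)⁻¹ * ‖deriv v z‖ ^ 2 := by
  have h3 := lg_le (norm_pos_iff.1 (h0.trans_le h1)) h2
  have h4 : δ ^ 2 ≤ ‖v z‖ ^ 2 := pow_le_pow_left₀ h0.le h1 2
  have h5 : 1 ≤ lg (v z) ^ 2 := by nlinarith
  rw [← div_eq_inv_mul]
  refine div_le_div_of_nonneg_left (by positivity) (by positivity) ?_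
  change δ ^ 2 ≤ ‖v z‖ ^ 2 * lg (v z) ^ 2
  nlinarith [pow_pos h0 2]

lemma NH.fnN (H : NH C c G a) {G' : Set (Fin 2 → ℂ)} (h : G' ⊆ G) : Fn C (dom C c G') c.N2 :=
  (H.ch.2.1 _ (isCompact_closedBall 0 (1 / 2))).mono H.ok
    (.of_forall fun _ => .of_forall fun _ hz => ⟨dom_mono (h.trans H.sub') hz, le_rfl⟩)

lemma NH.fnP (H : NH C c G a) (i : Fin 2) : Fn C (dom C c G) fun k => Pc (c.x i k) := by
  obtain ⟨δ, h0, h1⟩ := H.f2 i 1 one_pos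
  refine Fn.cases H.ok ⟨1, h1⟩ ((H.fnN subset_rfl).smul (t := (δ ^ 2)⁻¹) (by positivity))
    (.of_forall fun k => .of_forall fun z hz => ?_)
  by_cases h : ‖c.x i k z‖ < δ
  · exact Or.inl ⟨⟨dom_mono (subset_univ _) hz, h⟩, le_rfl⟩
  · exact Or.inr ⟨hz, (Pc_le h0 (not_lt.1 h) (H.half hz i)).trans
      (mul_le_mul_of_nonneg_left (le_N2 i) (by positivity))⟩

lemma NH.ls (hL : LogSubStmt) (H : NH C c G a) : ∀ᶠ k in atTop, ∀ i j, i ≠ j →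
    LS (dom C c G k) fun z => exp (Bb C c k z) * ‖c.x j k z * deriv (c.x i k) z‖ ^ 2 := by
  filter_upwards [H.ev, H.ae] with k h1 h2 i j hij
  exact ls_basic hL (dom_open H.ok H.op k) H.ok.2.2.2 (fun z hz => h1.2 z hz i j hij)
    (h2.mono fun z b hz => (b hz.1).2.1)

lemma log_le_log_one_add {x : ℝ} (h : 0 < x) : log x ≤ log (1 + x) := log_le_log h (by linarith)

lemma NH.valid_n (hL : LogSubStmt) (hS : SubMeanStmt) (H : NH C c G a) {L : ℝ} (h0 : L ≠ 0) :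
    Valid C (dom C c G) (nP C c L) η := by
  refine valid_of_ls hS H.ok (a := a + log (L ^ 2))
    (A := fun k z => (exp (Bb C c k z) * ‖c.x 1 k z * deriv (c.x 0 k) z‖ ^ 2 *
      (lg (c.x 0 k z) ^ 2)⁻¹ + exp (Bb C c k z) * ‖c.x 0 k z * deriv (c.x 1 k) z‖ ^ 2 *
      (lg (c.x 1 k z) ^ 2)⁻¹) * L ^ 2) ?_ ((H.fnP 0).add H.ok (H.fnP 1))
  filter_upwards [H.ls hL, H.ev, H.ae] with k h1 h2 h3
  have hO := dom_open (c := c) H.ok H.op k
  refine ⟨hO, (((h1 0 1 (by decide)).mul hO (ls_invlog hL hO (x_diff 0) fun z hz =>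
    H.half hz 0)).add hO ((h1 1 0 (by decide)).mul hO (ls_invlog hL hO (x_diff 1) fun z hz =>
    H.half hz 1))).mul hO (ls_const hL hO (sq_nonneg L)), ?_⟩
  filter_upwards [h2.1, h3] with z b1 b2 hz
  obtain ⟨n1, -, n3⟩ := b2 hz.1
  have p := nA_pos (q := c.pt k z) n3 (H.half hz) (dv_ne n1)
  have e : (exp (Bb C c k z) * ‖c.x 1 k z * deriv (c.x 0 k) z‖ ^ 2 *
      (lg (c.x 0 k z) ^ 2)⁻¹ + exp (Bb C c k z) * ‖c.x 0 k z * deriv (c.x 1 k) z‖ ^ 2 *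
      (lg (c.x 1 k z) ^ 2)⁻¹) * L ^ 2 = exp (Bb C c k z) * nA (c.pt k z) (c.dv k z) * L ^ 2 := by
    simp only [nA, Ch.pt, Ch.dv]; ring
  have e2 : nA (c.pt k z) (c.dv k z) =
      ‖c.x 0 k z * c.x 1 k z‖ ^ 2 * (Pc (c.x 0 k) z + Pc (c.x 1 k) z) := by
    have := norm_ne_zero_iff.2 (n3 0)
    have := norm_ne_zero_iff.2 (n3 1)
    simp only [nA, Ch.pt, Ch.dv, Pc, lg, norm_mul, div_eq_mul_inv, mul_inv]
    field_simp
  have p1 : 0 < ‖c.x 0 k z * c.x 1 k z‖ ^ 2 :=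
    pow_pos (norm_pos_iff.2 (mul_ne_zero (n3 0) (n3 1))) 2
  have p2 : 0 < Pc (c.x 0 k) z + Pc (c.x 1 k) z := by
    rw [e2] at p; exact (mul_pos_iff_of_pos_left p1).1 p
  rw [e]
  refine ⟨⟨by positivity, ?_⟩, p2.le, ?_⟩
  · rw [log_mul (by positivity) (by positivity), log_mul (by positivity) p.ne', log_exp, nP]
  · have := log_le_log_one_add p2
    have := b1 hz
    rw [nP, e2, log_mul p1.ne' p2.ne']
    linarith

lemma log_x01 (h : i ≠ j) {q : Fin 2 → ℂ} (h0 : ∀ i, q i ≠ 0) :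
    log (‖q 0 * q 1‖ ^ 2) = lg (q i) + lg (q j) := by
  have e : log (‖q 0 * q 1‖ ^ 2) = lg (q 0) + lg (q 1) := by
    rw [norm_mul, mul_pow, log_mul (pow_ne_zero 2 (norm_ne_zero_iff.2 (h0 0)))
      (pow_ne_zero 2 (norm_ne_zero_iff.2 (h0 1)))]; rfl
  rcases fin2 h with ⟨rfl, rfl⟩ | ⟨rfl, rfl⟩
  · exact e
  · rw [e, add_comm]

lemma open_gt (j : Fin 2) (δ : ℝ) : IsOpen {q : Fin 2 → ℂ | δ < ‖q j‖} :=
  isOpen_lt continuous_const (by fun_prop)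

lemma closed_ge (j : Fin 2) (δ : ℝ) : IsClosed {q : Fin 2 → ℂ | δ ≤ ‖q j‖} :=
  isClosed_le continuous_const (by fun_prop)

lemma NH.valid_s (hL : LogSubStmt) (hS : SubMeanStmt) (H : NH C c G a) (hij : i ≠ j) {δ : ℝ}
    (h0 : 0 < δ) : Valid C (dom C c (G ∩ {q | δ < ‖q j‖})) (sP C c i) η := by
  refine valid_of_ls hS H.ok (a := a - log (δ ^ 2))
    (A := fun k z => exp (Bb C c k z) * ‖c.x j k z * deriv (c.x i k) z‖ ^ 2 *
      ‖c.x i k z / c.x j k z‖ ^ 2 + exp (Bb C c k z) * ‖c.x i k z * deriv (c.x j k) z‖ ^ 2) ?_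
    (H.fnN inter_subset_left)
  filter_upwards [H.ls hL, H.ev, H.ae] with k h1 h2 h3
  have hO := dom_open (c := c) H.ok (H.op.inter (open_gt j δ)) k
  have hs : dom C c (G ∩ {q | δ < ‖q j‖}) k ⊆ dom C c G k := dom_mono inter_subset_left
  refine ⟨hO, (((h1 i j hij).mono hs).mul hO (ls_sq hL hO ((x_diff i).div (x_diff j) fun z hz =>
    norm_pos_iff.1 (h0.trans hz.2.2.2)))).add hO ((h1 j i hij.symm).mono hs), ?_⟩
  filter_upwards [h2.1, h3] with z b1 b2 hz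
  obtain ⟨n1, -, n3⟩ := b2 hz.1
  have p : 0 < c.N2 k z := N2_nonneg.lt_of_ne n1.symm
  have pi := norm_pos_iff.2 (n3 i)
  have pj := norm_pos_iff.2 (n3 j)
  have e : exp (Bb C c k z) * ‖c.x j k z * deriv (c.x i k) z‖ ^ 2 *
      ‖c.x i k z / c.x j k z‖ ^ 2 + exp (Bb C c k z) * ‖c.x i k z * deriv (c.x j k) z‖ ^ 2 =
      exp (Bb C c k z) * ‖c.x i k z‖ ^ 2 * c.N2 k z := by
    rw [N2_eq hij]
    simp only [norm_mul, norm_div]
    field_simp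
  rw [e]
  refine ⟨⟨by positivity, ?_⟩, p.le, ?_⟩
  · rw [log_mul (by positivity) p.ne', log_mul (by positivity) (by positivity), log_exp, sP, lg]
  · have := log_le_log_one_add p
    have h4 := b1 (hs hz)
    have h5 : log (δ ^ 2) ≤ lg (c.x j k z) := le_lg_of h0 (le_of_lt hz.2.2.2)
    have h6 := log_x01 hij (q := c.pt k z) n3
    simp only [Ch.pt] at h6
    rw [sP]
    linarith

lemma lg_cont {K : Set (Fin 2 → ℂ)} (i : Fin 2) (h : ∀ q ∈ K, q i ≠ 0) :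
    ContinuousOn (fun p : (Fin 2 → ℂ) × (Fin 2 → ℂ) => lg (p.1 i)) (K ×ˢ {0}ᶜ) :=
  ContinuousOn.log (by fun_prop) fun p hp => pow_ne_zero 2 (norm_ne_zero_iff.2 (h _ hp.1))

lemma NH.th_ne (H : NH C c G a) {q : Fin 2 → ℂ} (h : ∀ i, q i ≠ 0) : eval q c.θ ≠ 0 := by
  simp [H.th, h]

lemma NH.tc_s (hT : TCStmt) (H : NH C c G a) (hij : i ≠ j) (hK : IsCompact K)
    (h : ∀ q ∈ K, q j ≠ 0) :
    Null C (dom C c K) fun k z => (sP C c i k z - BR C c k z) ^ 2 * c.N2 k z := by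
  have := hT C c K (fun q _ => log (‖q i * q j‖ ^ 2 + (‖q i‖ ^ 2 + ‖q j‖ ^ 2)) - lg (q j))
    H.ok H.ch hK (ContinuousOn.sub (ContinuousOn.log (by fun_prop) fun p hp => by
      have := norm_pos_iff.2 (h _ hp.1)
      positivity) (lg_cont j h)) (fun _ _ _ _ _ => rfl) (fun q hq w _ h1 _ => by
        have h2 : q i = 0 := by
          have := h q hq
          rcases fin2 hij with ⟨rfl, rfl⟩ | ⟨rfl, rfl⟩ <;> simpa [H.th, this] using h1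
        simp [h2, lg])
  refine this.mono H.ok (H.ae.mono fun k hk => hk.mono fun z b hz => ⟨hz, le_of_eq ?_⟩)
  congr 2
  have h6 := log_x01 hij (q := c.pt k z) (b hz.1).2.2
  have h7 : ‖eval (c.pt k z) c.θ‖ ^ 2 + H4.sq (fun l => eval (c.pt k z) (pderiv l c.θ)) =
      ‖c.pt k z i * c.pt k z j‖ ^ 2 + (‖c.pt k z i‖ ^ 2 + ‖c.pt k z j‖ ^ 2) := by
    rcases fin2 hij with ⟨rfl, rfl⟩ | ⟨rfl, rfl⟩ <;> simp [H.th, H4.sq, add_comm, mul_comm]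
  have h8 : eval (c.pt k z) c.θ = c.pt k z 0 * c.pt k z 1 := by simp [H.th]
  rw [sP, BR, H4.ref, h7, h8, h6]
  simp only [Ch.pt, Ch.N2]
  ring

lemma NH.tc_n (hT : TCStmt) (H : NH C c G a) (L : ℝ) (i : Fin 2) (hK : IsCompact K)
    (hs : K ⊆ closedBall 0 (1 / 2)) (h : ∀ q ∈ K, ∀ l, q l ≠ 0) :
    Null C (dom C c K) fun k z => (nP C c L k z - sP C c i k z) ^ 2 * c.N2 k z := by
  have l0 : ∀ l, ∀ p ∈ K ×ˢ ({0}ᶜ : Set (Fin 2 → ℂ)), lg (p.1 l) ^ 2 ≠ 0 := fun l p hp =>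
    pow_ne_zero 2 (by linarith [lg_le (h _ hp.1 l) (H75.half (hs hp.1) l)])
  have c1 : ContinuousOn (fun p : (Fin 2 → ℂ) × (Fin 2 → ℂ) => nA p.1 p.2) (K ×ˢ {0}ᶜ) :=
    (ContinuousOn.mul (by fun_prop) (((lg_cont 0 fun q hq => h q hq 0).pow 2).inv₀ (l0 0))).add
      (ContinuousOn.mul (by fun_prop) (((lg_cont 1 fun q hq => h q hq 1).pow 2).inv₀ (l0 1)))
  have := hT C c K (fun q w => log (nA q w) + log (L ^ 2) - lg (q i) - log (H4.sq w))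
    H.ok H.ch hK ((((c1.log fun p hp => (nA_pos (h _ hp.1) (H75.half (hs hp.1)) hp.2).ne').add
      continuousOn_const).sub (lg_cont i fun q hq => h q hq i)).sub
      ((sq_cont.comp continuous_snd).continuousOn.log fun p hp => (sq_pos hp.2).ne'))
    (fun q hq w t ht => by
      rcases eq_or_ne w 0 with rfl | hw
      · simp
      · rw [nA_smul, sq_smul, log_mul (by positivity) (nA_pos (h q hq) (H75.half (hs hq)) hw).ne',
          log_mul (by positivity) (sq_pos hw).ne']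
        ring) (fun q hq w _ h1 _ => absurd h1 (H.th_ne (h q hq)))
  refine this.mono H.ok (.of_forall fun k => .of_forall fun z hz => ⟨hz, le_of_eq ?_⟩)
  congr 2
  simp only [nP, sP, Ch.pt, Ch.N2]
  ring

lemma NH.tc_ss (hT : TCStmt) (H : NH C c G a) (i j : Fin 2) (hK : IsCompact K)
    (h : ∀ q ∈ K, ∀ l, q l ≠ 0) :
    Null C (dom C c K) fun k z => (sP C c i k z - sP C c j k z) ^ 2 * c.N2 k z := by
  have := hT C c K (fun q _ => lg (q i) - lg (q j)) H.ok H.ch hK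
    ((lg_cont i fun q hq => h q hq i).sub (lg_cont j fun q hq => h q hq j))
    (fun _ _ _ _ _ => rfl) (fun q hq w _ h1 _ => absurd h1 (H.th_ne (h q hq)))
  refine this.mono H.ok (.of_forall fun k => .of_forall fun z hz => ⟨hz, le_of_eq ?_⟩)
  congr 2
  simp only [sP, Ch.pt]
  ring

theorem outer (hL : LogSubStmt) (hS : SubMeanStmt) (hT : TCStmt) : OuterStmt := by
  intro C c G K₀ a hC hc hG hK hGK h0 hev
  refine ⟨fun η _ => ?_, fun K h1 h2 => ?_⟩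
  · refine valid_of_ls hS hC (a := a) (e' := c.N2)
      (A := fun k z => exp (Bb C c k z) * ‖deriv (c.x 0 k) z‖ ^ 2 +
        exp (Bb C c k z) * ‖deriv (c.x 1 k) z‖ ^ 2) ?_ ((hc.2.1 _ hK).mono hC
      (.of_forall fun _ => .of_forall fun _ hz => ⟨dom_mono hGK hz, le_rfl⟩))
    filter_upwards [hev, hc.1] with k h1 h2
    have hO := dom_open (c := c) hC hG k
    have l := fun i => ls_basic hL hO hC.2.2.2 (fun z hz => h1.2 z hz i)
      (h2.2.mono fun z b hz => (b hz.1).2.1)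
    refine ⟨hO, (l 0).add hO (l 1), ?_⟩
    filter_upwards [h1.1, h2.2] with z b1 b2 hz
    have p : 0 < c.N2 k z := N2_nonneg.lt_of_ne (b2 hz.1).1.symm
    rw [← mul_add, ← N2_eq (by decide)]
    refine ⟨⟨by positivity, by rw [log_mul (by positivity) p.ne', log_exp]⟩, p.le, ?_⟩
    linarith [log_le_log_one_add p, b1 hz]
  · have n : ∀ p ∈ K ×ˢ ({0}ᶜ : Set (Fin 2 → ℂ)), 0 < ‖eval p.1 c.θ‖ ^ 2 := fun p hp =>
      pow_pos (norm_pos_iff.2 (h0 _ (hGK (h2 hp.1)))) 2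
    have c1 : Continuous fun p : (Fin 2 → ℂ) × (Fin 2 → ℂ) => ‖eval p.1 c.θ‖ ^ 2 :=
      ((MvPolynomial.continuous_eval _).comp continuous_fst).norm.pow 2
    have c2 : Continuous fun p : (Fin 2 → ℂ) × (Fin 2 → ℂ) =>
        H4.sq fun i => eval p.1 (pderiv i c.θ) :=
      sq_cont.comp (continuous_pi fun i => (MvPolynomial.continuous_eval _).comp continuous_fst)
    have := hT C c K (fun q _ => log (‖eval q c.θ‖ ^ 2 + H4.sq fun i => eval q (pderiv i c.θ)) -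
      log (‖eval q c.θ‖ ^ 2)) hC hc h1 (((c1.add c2).continuousOn.log fun p hp =>
        (add_pos_of_pos_of_nonneg (n p hp) (sq_nonneg' _)).ne').sub
        (c1.continuousOn.log fun p hp => (n p hp).ne')) (fun _ _ _ _ _ => rfl)
      (fun q hq w _ h3 _ => absurd h3 (h0 q (hGK (h2 hq))))
    refine this.mono hC (.of_forall fun k => .of_forall fun z hz => ⟨hz, le_of_eq ?_⟩)
    congr 2
    simp only [BR, H4.ref, Ch.N2]
    ring

end Pool.Agent.MP_c69980_ag.H75
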